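import Pool.Agent.HilbP1.J12c

set_option autoImplicit false

open MP4403b8

namespace Pool.Agent.Results.MP_4403b8_ag.RationalCurves

/-- Any two distinct monomial ideals of colength `n` in `ℂ[x,y]` are joined by a smooth rational
curve in `Hilb^n(ℂ²)`: there is a closed embedding `ℙ¹ → Hilb^n(ℂ²)` whose image contains both
points. -/
theorem result (n : ℕ) (I J : Ideal (MvPolynomial (Fin 2) ℂ))
    (hI : IsHilbPoint n ℂ I) (hJ : IsHilbPoint n ℂ J)
    (mI : IsMonomialIdeal I) (mJ : IsMonomialIdeal J) (hIJ : I ≠ J) : Joined n I J :=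
  MP4403b8.result n I J hI hJ mI mJ hIJ

end Pool.Agent.Results.MP_4403b8_ag.RationalCurves
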